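import Mathlib
import Pool.Agent.H.MP_8c5ed8_co.A
set_option autoImplicit false

namespace Pool.Agent.Results.MP_8c5ed8_co.Yes
open Finset Filter Topology Pool.Agent.H.MP_8c5ed8_co

/-- the parts of `φ(S)`: one part `|{s ∈ S : s < g}|` for each gap `g` of `S` -/
noncomputable def phi (S : Set ℕ) (h : Sᶜ.Finite) : Multiset ℕ :=
  h.toFinset.val.map fun g => {s | s ∈ S ∧ s < g}.ncard

/-- a multiset of parts is `φ(S)` for a numerical semigroup `S` -/
def Assoc (m : Multiset ℕ) : Prop :=
  ∃ (S : Set ℕ) (h : Sᶜ.Finite), 0 ∈ S ∧ (∀ a ∈ S, ∀ b ∈ S, a + b ∈ S) ∧ m = phi S h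

/-- number of partitions of size at most `n` -/
noncomputable def P (n : ℕ) : ℕ := ∑ k ∈ range (n + 1), Nat.card (Nat.Partition k)

/-- number of partitions of size at most `n` associated to numerical semigroups -/
noncomputable def S' (n : ℕ) : ℕ :=
  ∑ k ∈ range (n + 1), Nat.card {p : Nat.Partition k // Assoc p.parts}

open Classical in
theorem pa (m : Multiset ℕ) (hm : Assoc m) : PA m := by
  obtain ⟨S, h, h0, hS, rfl⟩ := hm
  have e : ∀ g, {s | s ∈ S ∧ s < g}.ncard = Nat.count (· ∈ S) g := fun g => by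
    rw [Nat.count_eq_card_filter_range, ← Set.ncard_coe_finset]
    congr 1
    ext s
    simp [and_comm]
  have lt : ∀ x ∈ S, ∀ g, x < g → Nat.count (· ∈ S) x < Nat.count (· ∈ S) g := fun x hx g hg =>
    Nat.count_strict_mono hx hg
  have key : ∀ x ∈ S, cc (phi S h) (Nat.count (· ∈ S) x) + Nat.count (· ∈ S) x = x := by
    intro x hx
    have h1 : cc (phi S h) (Nat.count (· ∈ S) x) = ((range x).filter fun g => ¬ g ∈ S).card := by
      rw [cc, phi, Multiset.filter_map, Multiset.card_map, ← filter_val, card_val]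
      congr 1
      ext g
      simp only [mem_filter, Set.Finite.mem_toFinset, Set.mem_compl_iff, Function.comp, e, mem_range]
      constructor
      · rintro ⟨h1, h2⟩
        refine ⟨lt_of_le_of_ne (not_lt.1 fun h3 => (lt x hx g h3).not_ge h2) fun h3 => h1 (h3 ▸ hx),
          h1⟩
      · exact fun h1 => ⟨h1.2, Nat.count_monotone _ h1.1.le⟩
    rw [h1, Nat.count_eq_card_filter_range, add_comm, card_filter_add_card_filter_not, card_range]
  have ex : ∃ a, a ∈ S ∧ 0 < a := by
    obtain ⟨a, ha, ha'⟩ := (Set.infinite_of_finite_compl h).exists_gt 0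
    exact ⟨a, ha, ha'⟩
  obtain ⟨a1, a2⟩ := Nat.find_spec ex
  have a3 : Nat.count (· ∈ S) (Nat.find ex) = 1 := by
    rw [Nat.count_eq_card_filter_range, card_eq_one]
    refine ⟨0, eq_singleton_iff_unique_mem.2 ⟨mem_filter.2 ⟨mem_range.2 a2, h0⟩, fun x hx => ?_⟩⟩
    by_contra h'
    exact Nat.find_min ex (mem_range.1 (mem_filter.1 hx).1) ⟨(mem_filter.1 hx).2, by omega⟩
  have k1 := key _ a1
  have k2 := key _ (hS _ a1 _ a1)
  have k3 := lt _ a1 (Nat.find ex + Nat.find ex) (by omega)
  rw [a3] at k1 k3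
  exact ⟨_, k3, by omega⟩

theorem result : Tendsto (fun n => (S' n : ℝ) / P n) atTop (𝓝 0) := by
  classical
  have h1 : ∀ n, P n = (PS n).card := fun n => by
    have := card_PS n fun _ => True
    rw [filter_true_of_mem fun _ _ => trivial] at this
    rw [P, ← this]
    exact sum_congr rfl fun k _ => by simp
  have h2 : ∀ n, S' n ≤ ((PS n).filter PA).card := fun n => by
    rw [S', card_PS]
    exact card_le_card (monotone_filter_right _ fun m _ => pa m)
  refine tendsto_order.2 ⟨fun a ha => Eventually.of_forall fun n => ha.trans_le (by positivity),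
    fun ε hε => (fin (ε / 2) (by positivity)).mono fun n hn => ?_⟩
  have h3 : (0 : ℝ) < (PS n).card := by
    exact_mod_cast lt_of_lt_of_le (by positivity) (expo n)
  have h4 : (S' n : ℝ) ≤ ((PS n).filter PA).card := by exact_mod_cast h2 n
  rw [h1, div_lt_iff₀ h3]
  nlinarith

end Pool.Agent.Results.MP_8c5ed8_co.Yes
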